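import Pool.Agent.H50.NC.Targets

/-!
# MP_816b90_co: the case (1,1) is impossible
-/

set_option autoImplicit false

namespace Pool.Agent.H1.NCK

open Pool.Agent.H48.ER Pool.Agent.H50.NC

variable {V : Type} {G : SimpleGraph V}

theorem sd_flip {a b : Fin 3 → V} {n : Fin 3 → ℕ} {P : Fin 3 → Set V} {i : Fin 3} {S : Set V}
    (h : Sd G a b n P i S) : Sd G b a n P i S where
  pr := ⟨h.pr.1.flip, h.pr.2⟩
  cn := h.cn
  int v hv h1 h2 := h.int v hv h2 h1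
  ne := h.ne
  mx := h.mx

theorem two_others (i : Fin 3) : ∃ j k : Fin 3, j ≠ i ∧ k ≠ i ∧ j ≠ k := by
  fin_cases i
  · exact ⟨1, 2, by decide, by decide, by decide⟩
  · exact ⟨0, 2, by decide, by decide, by decide⟩
  · exact ⟨0, 1, by decide, by decide, by decide⟩

/-- the ends `a' j` and `b' k` of an even prism are different and not adjacent -/
theorem ab_nadj {a b : Fin 3 → V} {n : Fin 3 → ℕ} {P : Fin 3 → Set V} (h : EPr G a b n P)
    (j k : Fin 3) : ¬ G.Adj (a j) (b k) := by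
  intro hadj
  by_cases e : j = k
  · subst e
    have h1 := (h.1.ip j).adj_iff.1 hadj
    have h2 := h.2 j
    rw [h1] at h2
    exact absurd h2 (by decide)
  · rcases (h.1.adj j k e _ (h.1.a_mem j) _ (h.1.b_mem k)).1 hadj with ⟨_, h2⟩ | ⟨h1, _⟩
    · exact h.1.a_ne_b k k h2.symm
    · exact h.1.a_ne_b j j h1

/-- a vertex of the first type next to a major: contradiction -/
theorem kill (hF1 : T_F1) (hF2 : T_F2) {a b : Fin 3 → V} {n : Fin 3 → ℕ} {P : Fin 3 → Set V}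
    {i : Fin 3} {S : Set V} {M O N : V} (hH : NOH G) (hO : NOP G) (hK : NK4 G)
    (hS : Sd G a b n P i S) (nM : Nb G S M) (nO : Nb G S O) (nN : Nb G S N) (eNM : N ≠ M)
    (aNM : ¬ G.Adj N M) (aNO : ¬ G.Adj N O) (aMO : G.Adj M O) (m1 : Mj G a i M) (m2 : Mj G b i M)
    (k1 : Mj G a i N) (k2 : Mj G b i N) (tO : Al G a P i O) : False := by
  obtain ⟨j, k, hj, hk, hjk⟩ := two_others i
  have h1 := hF1 V G a b n P i S O N hH hO hS nO tO nN aNO k1 k2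
  have h2 := hF2 V G a b n P i S N M hH hK hS nN nM eNM aNM k1 k2 m1 m2
  have hX : ∀ l, l ≠ i → a l ∈ Xr P i := fun l hl => ⟨l, hl, hS.pr.1.a_mem l⟩
  have o1 : G.Adj O (a j) := (tO _ (hX j hj)).2 ⟨j, hj, rfl⟩
  have o2 : G.Adj O (a k) := (tO _ (hX k hk)).2 ⟨k, hk, rfl⟩
  have p1 : G.Adj M (a j) := (h2 j).1 (h1 j hj)
  have p2 : G.Adj M (a k) := (h2 k).1 (h1 k hk)
  exact hK M O (a j) (a k) aMO p1 p2 o1 o2 (hS.pr.1.a_adj hjk)

/-- the final contradiction -/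
theorem kill2 (hTYP : T_TYP) (hF1 : T_F1) (hF2 : T_F2) (hF3 : T_F3) {a b : Fin 3 → V}
    {n : Fin 3 → ℕ} {P : Fin 3 → Set V} {i : Fin 3} {S : Set V} {M O N : V} (hH : NOH G)
    (hO : NOP G) (hK : NK4 G) (hS : Sd G a b n P i S) (nM : Nb G S M) (nO : Nb G S O)
    (nN : Nb G S N) (eNM : N ≠ M) (eNO : N ≠ O) (aNM : ¬ G.Adj N M) (aNO : ¬ G.Adj N O)
    (aMO : G.Adj M O) (m1 : Mj G a i M) (m2 : Mj G b i M) (k1 : Mj G a i N) (k2 : Mj G b i N) :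
    False := by
  rcases hTYP V G a b n P i S O hH hO hS nO with tO | tO | ⟨o1, o2⟩
  · exact kill hF1 hF2 hH hO hK hS nM nO nN eNM aNM aNO aMO m1 m2 k1 k2 tO
  · exact kill hF1 hF2 hH hO hK (sd_flip hS) nM nO nN eNM aNM aNO aMO m2 m1 k2 k1 tO
  · have h2 := hF2 V G a b n P i S N M hH hK hS nN nM eNM aNM k1 k2 m1 m2
    have h3 := hF2 V G a b n P i S N O hH hK hS nN nO eNO aNO k1 k2 o1 o2
    exact hF3 V G a b n P i S M O hK hS aMO m1 o1 fun j => (h2 j).symm.trans (h3 j)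

theorem pf_X4 (hTYP : T_TYP) (hF1 : T_F1) (hF2 : T_F2) (hF3 : T_F3) (hFA : T_FA) : T_X4 := by
  intro V G a b n P i S hH hO hK hS hC
  obtain ⟨a', b', n', P', hE, h0, ha1, ha2, hb1, hb2⟩ := hC
  have a0 : a' 0 ∈ S := h0 (hE.1.a_mem 0)
  have b0 : b' 0 ∈ S := h0 (hE.1.b_mem 0)
  have na : ∀ j, j ≠ 0 → a' j ∉ S → Nb G S (a' j) := fun j hj h =>
    ⟨h, a' 0, a0, hE.1.a_adj hj⟩
  have nb : ∀ j, j ≠ 0 → b' j ∉ S → Nb G S (b' j) := fun j hj h =>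
    ⟨h, b' 0, b0, hE.1.b_adj hj⟩
  have na1 := na 1 (by decide) ha1
  have na2 := na 2 (by decide) ha2
  have nb1 := nb 1 (by decide) hb1
  have nb2 := nb 2 (by decide) hb2
  have hba : ∀ j k, ¬ G.Adj (b' j) (a' k) := fun j k h => ab_nadj hE k j h.symm
  have hne : ∀ j k, b' j ≠ a' k := fun j k h => hE.1.a_ne_b k j h.symm
  have e12 : G.Adj (a' 1) (a' 2) := hE.1.a_adj (by decide)
  have f12 : G.Adj (b' 1) (b' 2) := hE.1.b_adj (by decide)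
  -- a major among the `b`-corners
  have hN : ∃ k, Nb G S (b' k) ∧ Mj G a i (b' k) ∧ Mj G b i (b' k) := by
    rcases hFA V G a b n P i S _ _ hH hO hK hS nb1 nb2 f12 with ⟨k1, k2⟩ | ⟨k1, k2⟩
    · exact ⟨1, nb1, k1, k2⟩
    · exact ⟨2, nb2, k1, k2⟩
  obtain ⟨k, nN, k1, k2⟩ := hN
  rcases hFA V G a b n P i S _ _ hH hO hK hS na1 na2 e12 with ⟨m1, m2⟩ | ⟨m1, m2⟩
  · exact kill2 hTYP hF1 hF2 hF3 hH hO hK hS na1 na2 nN (hne k 1) (hne k 2) (hba k 1) (hba k 2)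
      e12 m1 m2 k1 k2
  · exact kill2 hTYP hF1 hF2 hF3 hH hO hK hS na2 na1 nN (hne k 2) (hne k 1) (hba k 2) (hba k 1)
      e12.symm m1 m2 k1 k2

end Pool.Agent.H1.NCK
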